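import Pool.Agent.MP_77f003_co.H51.HBasic

/-!
A crossing gadget is translated next to a ray and its rays are rerouted to the given end.
-/

namespace Pool.Agent.MP_77f003_co.H49

open SimpleGraph Filter Set

namespace Gad

variable {V : Type} {G : SimpleGraph V} {a r ω : ℕ → V} {ρ k K : ℕ} {u v x z z' : V}

/-- The points linked to the end outside a ball. -/
def Cp (G : SimpleGraph V) (ω : ℕ → V) (ρ : ℕ) (z : V) : Set V :=
  {v | ∀ᶠ n in atTop, Lk G {y | ρ < G.dist z y} v (ω n)}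

/-- A point that is not cut off from the end by a far small ball. -/
def Good (G : SimpleGraph V) (ω : ℕ → V) (ρ : ℕ) (p : V) : Prop :=
  ∀ z, 3 * ρ < G.dist z p → p ∈ Cp G ω ρ z

theorem Cp.lk (h : v ∈ Cp G ω ρ z) (l : Lk G {y | ρ < G.dist z y} u v) : u ∈ Cp G ω ρ z :=
  Eventually.mono h fun _ k => l.trans k

variable [Fact G.Connected]

theorem cp_ev (ha : LR G a) (hω : LR G ω) (h : SE G a ω) (ρ : ℕ) (z : V) :
    ∀ᶠ m in atTop, a m ∈ Cp G ω ρ z := by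
  obtain ⟨k, hk⟩ := (h.ev ha hω z (ρ + 1)).exists
  filter_upwards [eventually_ge_atTop k] with m hm
  exact (eventually_ge_atTop k).mono fun n hn => hk m n hm hn

theorem meets (ha : LR G a) (hω : LR G ω) (h : SE G a ω) (hk : a k ∉ Cp G ω ρ z) :
    ∃ j, k ≤ j ∧ G.dist z (a j) ≤ ρ := by
  by_contra c
  push Not at c
  obtain ⟨m, m1, m2⟩ := ((cp_ev ha hω h ρ z).and (eventually_ge_atTop k)).exists
  exact hk (Cp.lk m1 (ha.lk fun i h1 _ => c i (by omega)))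

theorem cp_sub (h1 : G.dist z x ≤ ρ) (h2 : 3 * ρ < G.dist z' x) (h3 : x ∉ Cp G ω ρ z') :
    Cp G ω ρ z' ⊆ Cp G ω ρ z := by
  intro v hv
  have key : ∀ u, G.dist z u ≤ ρ → Lk G {y | ρ < G.dist z' y} z u := fun u hu =>
    Lk.ball fun w hw => by
      have e1 := tri (G := G) z' w x
      have e2 := tri (G := G) w z x
      rw [dcomm w z] at e2
      change ρ < _
      omega
  refine Eventually.mono hv fun n l => ?_
  obtain ⟨P, -, p2, p3, p4⟩ := l.symm.fin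
  refine (p4 _ p3).symm.mono fun y hy => show ρ < _ from not_le.1 fun c => ?_
  exact h3 (Cp.lk (Cp.lk hv ((p4 y hy).mono p2)) ((key x h1).symm.trans (key y c)))

theorem exists_typ (hω : LR G ω) (q : V) (s : ℕ) : ∃ v, G.dist q v ≤ s + 1 ∧ v ∈ Cp G ω s q := by
  obtain ⟨m, hm⟩ := (cp_ev hω hω (SE.refl hω) s q).exists
  obtain ⟨w, ⟨v, hv, e⟩, l⟩ := (Lk.ball (G := G) (S := univ) (x := q) (y := ω m)
    fun _ _ => trivial).exit (T := {y | G.dist q y ≤ s}) (by simp)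
    (show ¬ G.dist q (ω m) ≤ s from not_le.2 (Eventually.exists hm).choose_spec.left)
  refine ⟨w, ?_, Cp.lk hm (l.mono fun y hy => show s < _ from not_le.1 hy.2)⟩
  have e1 := tri (G := G) q v w
  have e2 : G.dist q v ≤ s := hv
  rw [dist_adj e] at e1
  omega

theorem Cp.map (h : G ≃g G) (hv : v ∈ Cp G ω ρ (h.symm z)) :
    h v ∈ Cp G (fun n => h (ω n)) ρ z :=
  Eventually.mono hv fun _ l => (l.map h).mono (by
    rintro _ ⟨y, hy, rfl⟩
    rwa [mem_ofPred_eq, ← dist_iso h, h.apply_symm_apply] at hy)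

theorem lnk_ev {R : Fin 4 → ℕ → V} (hR : ∀ a, LR G (R a)) {a b c d : Fin 4} (e1 : a ≠ c)
    (e2 : a ≠ d) (e3 : b ≠ c) (e4 : b ≠ d) (h : Lnk G K (R a) (R b) (R c) (R d)) :
    ∃ Z : Set V, Z.Finite ∧ ∀ Z', Z ⊆ Z' → ∀ᶠ N in atTop, Pair G K (fun a => R a N)
      (fun a => Z' ∪ ⋃ b ∈ {b | b ≠ a}, R b '' Iic N) a b c d := by
  obtain ⟨L, L', m1, m2, m3, m4, h1, h2, h3, h4, h5⟩ := h
  refine ⟨L ∪ L', h1.union h2, fun Z' hZ => ?_⟩
  have hlk : ∀ {x y : Fin 4} {X : Set V} {m m' N : ℕ}, Lk G X (R x m) (R y m') →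
      m ≤ N → m' ≤ N → Lk G (X ∪ R x '' Icc m N ∪ R y '' Icc m' N) (R x N) (R y N) :=
    fun h k1 k2 => (((hR _).lk fun k l1 l2 => Or.inl (Or.inr ⟨k, ⟨by omega, by omega⟩, rfl⟩)).trans
      (h.mono fun z hz => Or.inl (Or.inl hz))).trans
      ((hR _).lk fun k l1 l2 => Or.inr ⟨k, ⟨by omega, by omega⟩, rfl⟩)
  have hs1 : ∀ {x y : Fin 4} {X : Set V} {m m' N : ℕ},
      X ∪ R x '' Icc m N ∪ R y '' Icc m' N ⊆ X ∪ R x '' Ici m ∪ R y '' Ici m' := by
    intro x y X m m' N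
    exact union_subset_union (union_subset_union le_rfl (image_mono Icc_subset_Ici_self))
      (image_mono Icc_subset_Ici_self)
  have hs2 : ∀ {x y z : Fin 4} {X : Set V} {m m' N : ℕ}, X ⊆ Z' → x ≠ z → y ≠ z →
      X ∪ R x '' Icc m N ∪ R y '' Icc m' N ⊆ Z' ∪ ⋃ b ∈ {b | b ≠ z}, R b '' Iic N := by
    rintro x y z X m m' N k1 k2 k3 w ((hw | ⟨k, hk, rfl⟩) | ⟨k, hk, rfl⟩)
    · exact Or.inl (k1 hw)
    · exact Or.inr (mem_biUnion (x := x) k2 ⟨k, hk.2, rfl⟩)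
    · exact Or.inr (mem_biUnion (x := y) k3 ⟨k, hk.2, rfl⟩)
  have z1 : L ⊆ Z' := subset_union_left.trans hZ
  have z2 : L' ⊆ Z' := subset_union_right.trans hZ
  filter_upwards [eventually_ge_atTop (m1 + m2 + m3 + m4)] with N hN
  exact ⟨_, _, hlk h3 (by omega) (by omega), hlk h4 (by omega) (by omega), h5.mono hs1 hs1,
    hs2 z1 e1 e3, hs2 z1 e2 e4, hs2 z2 e1.symm e2.symm, hs2 z2 e3.symm e4.symm⟩

omit [Fact G.Connected] in
theorem range_shift (a : ℕ → V) (n : ℕ) : range (fun k => a (n + k)) ⊆ a '' Ici n := by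
  rintro _ ⟨k, rfl⟩
  exact ⟨_, Nat.le_add_right n k, rfl⟩

theorem se_shift (ha : LR G a) (hω : LR G ω) (h : SE G a ω) (n : ℕ) :
    SE G (fun k => a (n + k)) ω :=
  ((TE.shift a n).se (ha.shift n)).trans h (ha.shift n) ha hω

/-- The normal form of a cross. -/
theorem norm (hω : LR G ω) (h : Crs G K ω) : ∃ (c : Fin 4 → ℕ → V) (S : Fin 4 → Set V),
    RF G K ω c ∧ Gad G K (fun a => c a 0) S ∧ ∀ a, Far G K (S a) (range (c a)) := by
  obtain ⟨R, hR, h1, h2, h3⟩ := h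
  have hl := fun a => (hR a).1
  obtain ⟨Z1, f1, k1⟩ := lnk_ev hl (by decide) (by decide) (by decide) (by decide) h1
  obtain ⟨Z2, f2, k2⟩ := lnk_ev hl (by decide) (by decide) (by decide) (by decide) h2
  obtain ⟨Z3, f3, k3⟩ := lnk_ev hl (by decide) (by decide) (by decide) (by decide) h3
  have hZ := (f1.union f2).union f3
  have e1 : ∀ᶠ N in atTop, ∀ a, Far G K (Z1 ∪ Z2 ∪ Z3) (R a '' Ici N) :=
    eventually_all.2 fun a => (hl a).tail hZ K
  have e2 : ∀ᶠ N in atTop, ∀ a b, b ≠ a → Far G K (range (R b)) (R a '' Ici N) :=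
    eventually_all.2 fun a => eventually_all.2 fun b => by
      by_cases hb : b = a
      · exact Eventually.of_forall fun _ h' => absurd hb h'
      obtain ⟨u, v, k⟩ := (by decide : ∀ a b : Fin 4, b ≠ a →
        ∃ u v, a ≠ u ∧ a ≠ v ∧ u ≠ b ∧ u ≠ v ∧ b ≠ v) a b hb
      obtain ⟨L, L', m1, m2, m3, m4, -, -, -, -, h5⟩ :=
        all_pairs (P := fun a b c d => Lnk G K (R a) (R b) (R c) (R d)) Lnk.s1 Lnk.s2 h1 h2 h3
          a u b v k.1 (Ne.symm hb) k.2.1 k.2.2.1 k.2.2.2.1 k.2.2.2.2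
      filter_upwards [(hl a).tail ((finite_Iic m3).image (R b)) K, eventually_ge_atTop m1]
        with N n1 n2 _
      rintro _ ⟨i, rfl⟩ _ ⟨j, hj, rfl⟩
      rcases le_total i m3 with hi | hi
      · exact n1 _ ⟨i, hi, rfl⟩ _ ⟨j, hj, rfl⟩
      · exact h5.symm _ (Or.inl (Or.inr ⟨i, hi, rfl⟩)) _ (Or.inl (Or.inr ⟨j, n2.trans hj, rfl⟩))
  obtain ⟨N, ⟨n1, n2⟩, n3, n4, n5⟩ := ((e1.and e2).and
    ((k1 (Z1 ∪ Z2 ∪ Z3) fun _ h => Or.inl (Or.inl h)).and
      ((k2 _ fun _ h => Or.inl (Or.inr h)).and (k3 _ fun _ h => Or.inr h)))).exists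
  refine ⟨fun a k => R a (N + k), _, ⟨fun a => (hl a).shift N,
    fun a => se_shift (hl a) hω (hR a).2 N, fun a b e => (n2 b a e).mono
      (by rintro _ ⟨k, rfl⟩; exact ⟨_, rfl⟩) (range_shift _ _)⟩,
    ⟨fun a => hZ.union ((toFinite _).biUnion fun b _ => (finite_Iic N).image _), n3, n4, n5⟩,
    fun a => Far.mono (((n1 a).union ?_)) le_rfl (range_shift _ _)⟩
  intro y hy
  obtain ⟨b, hb, i, -, rfl⟩ := mem_iUnion₂.1 hy
  exact n2 a b hb _ ⟨i, rfl⟩

/-- Few members of a far family are close to a small set. -/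
theorem pick {n q s : ℕ} {A : Fin n → Set V} (hA : ∀ i j, i ≠ j → Far G (2 * s) (A i) (A j))
    {Y : Set V} (hY : Y.Finite) (h : q + Y.ncard ≤ n) :
    ∃ e : Fin q → Fin n, Function.Injective e ∧ ∀ i, Far G s Y (A (e i)) := by
  classical
  have h1 : {i | ¬ Far G s Y (A i)}.ncard ≤ Y.ncard := by
    have : ∀ i : Fin n, ∃ y : Option V, ¬ Far G s Y (A i) →
        ∃ y' ∈ Y, y = some y' ∧ ∃ w ∈ A i, G.dist y' w < s := fun i => by
      by_cases c : Far G s Y (A i)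
      · exact ⟨none, fun c' => absurd c c'⟩
      · simp only [Far, not_forall, not_le] at c
        obtain ⟨y, y1, w, w1, w2⟩ := c
        exact ⟨some y, fun _ => ⟨y, y1, rfl, w, w1, w2⟩⟩
    choose f hf using this
    rw [← ncard_image_of_injective Y (Option.some_injective V)]
    refine ncard_le_ncard_of_injOn f (fun i hi => ?_) (fun i hi j hj e => by_contra fun c => ?_)
      (hY.image _)
    · obtain ⟨y, y1, y2, -⟩ := hf i hi
      exact ⟨y, y1, y2.symm⟩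
    · obtain ⟨y, -, y2, w, w1, w2⟩ := hf i hi
      obtain ⟨y', -, y3, w', w3, w4⟩ := hf j hj
      obtain rfl : y = y' := Option.some_injective _ (y2.symm.trans (e.trans y3))
      have e1 := hA i j c w w1 w' w3
      have e2 := tri (G := G) w y w'
      rw [dcomm w y] at e2
      omega
  have h2 := ncard_add_ncard_compl {i | ¬ Far G s Y (A i)}
  obtain ⟨e⟩ := Function.Embedding.nonempty_of_card_le (α := Fin q)
    (β := ↥({i | ¬ Far G s Y (A i)}ᶜ : Set (Fin n))) (by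
      rw [Fintype.card_fin, ← Nat.card_eq_fintype_card, Nat.card_coe_set_eq]
      simp only [Nat.card_eq_fintype_card, Fintype.card_fin] at h2
      omega)
  exact ⟨fun i => e i, Subtype.val_injective.comp e.injective, fun i => not_not.1 (e i).2⟩

variable [G.LocallyFinite]

theorem good_freq (ht : VT G) (hω : LR G ω) (hT : Thk G ω) (hr : LR G r) (hs : SE G r ω) (ρ : ℕ) :
    ∃ᶠ k in atTop, Good G ω ρ (r k) := by
  intro hcon
  obtain ⟨k0, hk0⟩ := eventually_atTop.1 hcon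
  simp only [Good, not_forall] at hk0
  have key : ∀ m, ∃ k z, k0 + m ≤ k ∧ 3 * ρ < G.dist z (r k) ∧ r k ∉ Cp G ω ρ z ∧
      r k0 ∉ Cp G ω ρ z := by
    intro m
    induction m with
    | zero => exact let ⟨z, z1, z2⟩ := hk0 k0 le_rfl; ⟨k0, z, le_rfl, z1, z2, z2⟩
    | succ m ih =>
      obtain ⟨k, z, h1, h2, h3, h4⟩ := ih
      obtain ⟨j, j1, j2⟩ := meets hr hω hs h3
      obtain ⟨z', z1, z2⟩ := hk0 j (by omega)
      have : k ≠ j := by
        rintro rfl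
        omega
      exact ⟨j, z', by omega, z1, z2, fun h => h4 (cp_sub j2 z1 z2 h)⟩
  obtain ⟨R, hR⟩ := hT 1 ((ball G (r 0) ρ).card + 1)
  obtain ⟨t, ht'⟩ := (finite_range fun i => G.dist (r k0) (R i 0)).bddAbove
  obtain ⟨m, hm⟩ := eventually_atTop.1 (hr.2 (r k0) (t + 2 * ρ + 1))
  obtain ⟨k, z, h1, -, h3, h4⟩ := key m
  obtain ⟨j, j1, j2⟩ := meets hr hω hs h3
  have : ∀ i, ∃ n, R i n ∈ ball G z ρ := fun i => by
    obtain ⟨n, -, hn⟩ := meets (k := 0) (hR.lr i) hω (hR.se i) fun h => h4 (Cp.lk h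
      (Lk.ball fun w hw => by
        have e1 := hm j (by omega)
        have e2 := tri (G := G) (r k0) w (r j)
        have e3 := tri (G := G) w z (r j)
        have e4 : G.dist (r k0) (R i 0) ≤ t := ht' ⟨i, rfl⟩
        rw [dcomm w z] at e3
        change ρ < _
        omega))
    exact ⟨n, mem_ball.2 hn⟩
  choose n hn using this
  have := Finset.card_le_card_of_injOn (s := Finset.univ) (fun i => R i (n i)) (fun i _ => hn i)
    fun i _ j _ e => by_contra fun c => by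
      have := hR.far i j c _ ⟨n i, rfl⟩ _ ⟨n j, rfl⟩
      rw [show R i (n i) = R j (n j) from e] at this
      simp at this
  rw [card_ball_eq ht z (r 0)] at this
  simp at this

/-- Translations along the ray that move the end to an end not separated by a small ball. -/
theorem exists_tr (ht : VT G) (hω : LR G ω) (hT : Thk G ω) (hr : LR G r) (hs : SE G r ω) (ρ : ℕ) :
    ∃ p, ∃ᶠ k in atTop, ∃ h : G ≃g G, h p = r k ∧ NS G ρ (fun n => h (ω n)) ω := by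
  obtain ⟨u, hu⟩ : ∃ u, ∃ᶠ k in atTop, Good G ω ρ (r k) ∧
      ∃ g : G ≃g G, g (r 0) = r k ∧ g u ∈ Cp G ω (4 * ρ) (r k) := by
    by_contra c
    obtain ⟨k, k1, k2⟩ := ((good_freq ht hω hT hr hs ρ).and_eventually
      ((eventually_all_finite (finite_ball (G := G) (r 0) (4 * ρ + 1))).2 fun u _ =>
        not_frequently.1 fun h => c ⟨u, h⟩)).exists
    obtain ⟨g, hg⟩ := ht (r 0) (r k)
    obtain ⟨v, v1, v2⟩ := exists_typ hω (r k) (4 * ρ)
    refine k2 (g.symm v) ?_ ⟨k1, g, hg, by simpa using v2⟩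
    rwa [mem_ofPred_eq, ← dist_iso g, g.apply_symm_apply, hg]
  obtain ⟨k1, g1, g, e1, e2⟩ := hu.exists
  refine ⟨r k1, hu.mono fun k ⟨g2, g', e3, e4⟩ => ?_⟩
  have e5 : (g.symm.trans g') (r k1) = r k := by simp [← e1, e3]
  have e6 : (g.symm.trans g') (g u) = g' u := by simp
  generalize g.symm.trans g' = h at e5 e6
  refine ⟨h, e5, fun z n => ?_⟩
  obtain ⟨v, v1, v2⟩ : ∃ v, v ∈ Cp G (fun n => h (ω n)) ρ z ∧ v ∈ Cp G ω ρ z := by
    rcases lt_or_ge (3 * ρ) (G.dist z (r k)) with c | c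
    · exact ⟨r k, e5 ▸ Cp.map h (g1 _ (by rwa [← dist_iso h, h.apply_symm_apply, e5])), g2 z c⟩
    · have s : {y | 4 * ρ < G.dist (r k) y} ⊆ {y | ρ < G.dist z y} := fun y hy => by
        have e1 := tri (G := G) (r k) z y
        have e2 : 4 * ρ < G.dist (r k) y := hy
        rw [dcomm (r k) z] at e1
        change ρ < _
        omega
      refine ⟨g' u, Eventually.mono (Cp.map (z := r k) (v := g u) (ρ := 4 * ρ) h ?_)
        fun _ l => e6 ▸ l.mono s, Eventually.mono e4 fun _ l => l.mono s⟩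
      rwa [← e5, h.symm_apply_apply]
  obtain ⟨m, ⟨m1, m2⟩, m3⟩ := ((Eventually.and v1 v2).and (eventually_ge_atTop n)).exists
  exact ⟨m, m, m3, m3, m1.symm.trans m2⟩

end Gad

open Gad in
theorem gadSpec (hLT : LTSpec) (hUP : UPSpec) (hUSE : USESpec) : GadSpec := by
  intro V G _ _ κ ω r X ht hκ hω hT hC hX hr hs
  obtain ⟨c, S, c1, c2, c3⟩ := norm hω hC
  obtain ⟨F0, hF0⟩ := hT (81 * κ) (24 + X.ncard)
  have hS : (⋃ a, S a).Finite := finite_iUnion c2.1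
  obtain ⟨n0, hn0⟩ := (eventually_all.2 fun l => (hF0.lr l).tail hS (81 * κ)).exists
  have hF : RF G (81 * κ) ω fun l k => F0 l (n0 + k) :=
    ⟨fun l => (hF0.lr l).shift _, fun l => se_shift (hF0.lr l) hω (hF0.se l) _, fun i j e =>
      (hF0.far i j e).mono (by rintro _ ⟨k, rfl⟩; exact ⟨_, rfl⟩)
        (by rintro _ ⟨k, rfl⟩; exact ⟨_, rfl⟩)⟩
  have hSF : ∀ a l, Far G (81 * κ) (S a) (range ((fun l k => F0 l (n0 + k)) l)) := fun a l =>
    (hn0 l).mono (subset_iUnion S a) (range_shift _ _)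
  generalize (fun l k => F0 l (n0 + k)) = F at hF hSF
  have h81 : 9 * (9 * κ) = 81 * κ := by ring
  have hup := (hUP G (9 * κ) ω c F S (fun _ => ∅) (by omega) hω (h81 ▸ c1) (h81 ▸ hF) (by simp)
    (fun a => ⟨c2.1 a, h81 ▸ c3 a, h81 ▸ hSF a⟩)
    fun l => ⟨finite_empty, fun _ _ h => absurd h id, fun _ _ _ h => absurd h id⟩).2
  have hQ : ∀ e : Fin 4 → Fin (24 + X.ncard), ∃ Q : Set V, Q.Finite ∧ (Function.Injective e →
      ∃ Ψ : Fin 4 → ℕ → V, RF G (9 * κ) ω Ψ ∧ ∀ a, Ψ a 0 = c a 0 ∧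
        Far G (9 * κ) (S a) (range (Ψ a)) ∧ ∃ b, range (Ψ a) ⊆ Q ∪ range (F (e b))) := fun e => by
    by_cases he : Function.Injective e
    · obtain ⟨π, Ψ, h1, h2⟩ := hup e he
      choose m n hmn using fun a => (h2 a).2.1
      refine ⟨⋃ a, Ψ a '' Iic (m a), finite_iUnion fun a => (finite_Iic _).image _,
        fun _ => ⟨Ψ, h1, fun a => ⟨(h2 a).1, (h2 a).2.2, π a, ?_⟩⟩⟩
      rintro _ ⟨k, rfl⟩
      rcases le_total k (m a) with hk | hk
      · exact Or.inl (mem_iUnion.2 ⟨a, k, hk, rfl⟩)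
      · obtain ⟨j, rfl⟩ := Nat.exists_eq_add_of_le hk
        exact Or.inr ⟨_, (hmn a j).symm⟩
    · exact ⟨∅, finite_empty, fun h => absurd h he⟩
  choose Q Q1 Q2 using hQ
  obtain ⟨ρ, hρ⟩ := hLT G ht (2 * (9 * κ)) (24 + ((⋃ a, S a).ncard + X.ncard))
  obtain ⟨p, hp⟩ := exists_tr ht hω hT hr hs ρ
  obtain ⟨D, hD⟩ := ((((finite_iUnion Q1).union hS).union (finite_range fun a => c a 0)).image
    (G.dist p)).bddAbove
  refine ⟨D, fun k₀ => ?_⟩
  obtain ⟨k, ⟨h, h1, h2⟩, k1, k2⟩ := (hp.and_eventually ((eventually_ge_atTop k₀).and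
    (hr.tail hX (D + 9 * κ)))).exists
  obtain ⟨e, e1, e2⟩ := pick (q := 4) (s := 9 * κ) (fun i j e => (hF.far i j e).le (by omega))
    (hX.image h.symm) ((Nat.add_le_add_left (ncard_image_le hX) _).trans (by omega))
  obtain ⟨Ψ, p1, p2⟩ := Q2 e e1
  have hO : ∀ a, Far G (9 * κ) (h '' S a ∪ X) (range fun k => h (Ψ a k)) := fun a => by
    obtain ⟨-, q1, b, q2⟩ := p2 a
    rintro y hy _ ⟨j, rfl⟩
    rcases hy with ⟨y, hy, rfl⟩ | hy
    · exact (dist_iso h _ _).symm ▸ q1 y hy _ ⟨j, rfl⟩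
    rcases q2 ⟨j, rfl⟩ with q | q
    · have e3 : G.dist p (Ψ a j) ≤ D := hD ⟨_, Or.inl (Or.inl (mem_iUnion.2 ⟨e, q⟩)), rfl⟩
      have e4 := k2 y hy _ ⟨k, self_mem_Ici, rfl⟩
      have e5 := tri (G := G) y (h (Ψ a j)) (r k)
      rw [← dist_iso h, h1, dcomm] at e3
      change _ ≤ G.dist y (h (Ψ a j))
      omega
    · have := e2 b _ ⟨y, hy, rfl⟩ _ q
      rwa [← dist_iso h, h.apply_symm_apply] at this
  obtain ⟨Φ, f1, f2⟩ : ∃ Φ : Fin 4 → ℕ → V, RF G κ ω Φ ∧ ∀ a, Φ a 0 = h (Ψ a 0) ∧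
      Far G κ (h '' S a ∪ X) (range (Φ a)) := by
    have hM := p1.map h
    by_cases c : SE G (fun n => h (ω n)) ω
    · exact ⟨_, ⟨hM.lr, fun a => (hM.se a).trans c (hM.lr a) (hω.map h) hω, fun a b e =>
        (hM.far a b e).le (by omega)⟩, fun a => ⟨rfl, (hO a).le (by omega)⟩⟩
    obtain ⟨l, hl⟩ := hρ _ _ (hω.map h) hω c h2
    obtain ⟨f, g1, g2⟩ := pick (q := 24) hl.far ((hS.image h).union hX) (Nat.add_le_add_left
      ((ncard_union_le _ _).trans (Nat.add_le_add_right (ncard_image_le hS) _)) _)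
    exact hUSE G κ _ ω _ (fun i => l (f i)) _ hκ (hω.map h) hω c hM
      ⟨(hl.neg.comp g1).le (by omega), (hl.pos.comp g1).le (by omega), fun i j e =>
        (hl.far _ _ (g1.ne e)).le (by omega)⟩ (by simp) fun a => ⟨((c2.1 a).image h).union hX, hO a,
        fun j => (g2 j).mono (union_subset_union_left _ (image_mono (subset_iUnion S a))) le_rfl⟩
  have f3 : (fun a => Φ a 0) = fun a => h (c a 0) := funext fun a => by rw [(f2 a).1, (p2 a).1]
  have h1' : κ ≤ 81 * κ := by omega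
  have hP : ∀ {a b a' b'}, Pair G (81 * κ) (fun a => c a 0) S a b a' b' →
      Pair G κ (fun a => Φ a 0) (fun a => h '' S a) a b a' b' := fun H =>
    let ⟨L, L', l1, l2, l3, l4⟩ := H.map h
    f3 ▸ ⟨L, L', l1, l2, l3.le h1', l4⟩
  refine ⟨k, k1, Φ, fun a => h '' S a, f1, ⟨fun a => (c2.1 a).image h, hP c2.2.1, hP c2.2.2.1,
    hP c2.2.2.2⟩, fun a => ⟨?_, (f2 a).2⟩⟩
  rintro _ (rfl | ⟨y, hy, rfl⟩)
  · rw [congrFun f3 a, ← h1, dist_iso]
    exact hD ⟨_, Or.inr ⟨a, rfl⟩, rfl⟩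
  · rw [← h1, dist_iso]
    exact hD ⟨_, Or.inl (Or.inr (mem_iUnion.2 ⟨a, hy⟩)), rfl⟩

end Pool.Agent.MP_77f003_co.H49
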